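import Mathlib
import Pool.Prelude.Def_F_c31e40fa
import Pool.Agent.TH937.SC.Main2

set_option autoImplicit false

namespace Pool.Agent.Results.MP_fcb70f_an.SharpCoarseConnectivity

/-- The number `h n = 1 - (n - 1) n ^ (- n / (n - 1))`. -/
noncomputable def h (n : ℕ) : ℝ := 1 - ((n:ℝ) - 1) * (n:ℝ) ^ (-((n:ℝ) / ((n:ℝ) - 1)))

/-- The scale of coarse local connectivity of the Multibrot sets, up to `O(1 / n)`, uniformly in the
degree. It is `h n = (log n + 1) / n + O((log n / n) ^ 2)`: any two points `x, y` of `M_n` are joined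
by a continuum inside `M_n` of diameter at most `|x - y| + (1 + |x - y|) h n + 300 / n`, and for
`n ≥ 3` there are points of `M_n` at distance at most `2 π / (n - 1)` which are not joined by any
connected subset of `M_n` of diameter less than `h n`. -/
theorem result :
    (∀ n : ℕ, 2 ≤ n → (1 + Real.log n) / n - 2 * (Real.log n / n) ^ 2 ≤ h n ∧
      h n ≤ (1 + Real.log n) / n) ∧
    (∀ n : ℕ, 2 ≤ n → ∀ x ∈ N62a1eb23.multibrotSet n, ∀ y ∈ N62a1eb23.multibrotSet n,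
      ∃ S : Set ℂ, S ⊆ N62a1eb23.multibrotSet n ∧ IsCompact S ∧ IsConnected S ∧ x ∈ S ∧ y ∈ S ∧
        Metric.diam S ≤ dist x y + (1 + dist x y) * h n + 300 / n) ∧
    (∀ n : ℕ, 3 ≤ n → ∃ x ∈ N62a1eb23.multibrotSet n, ∃ y ∈ N62a1eb23.multibrotSet n,
      dist x y ≤ 2 * Real.pi / ((n : ℝ) - 1) ∧
        ∀ S : Set ℂ, S ⊆ N62a1eb23.multibrotSet n → IsConnected S → x ∈ S → y ∈ S →
          h n ≤ Metric.diam S) :=
  ⟨fun _ hn => ⟨Pool.Agent.TH937.SC.hh_ge hn, Pool.Agent.TH937.SC.hh_le hn⟩,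
    fun _ hn _ hx _ hy => Pool.Agent.TH937.SC.upper' hn hx hy,
    fun _ hn => Pool.Agent.TH937.SC.lower hn⟩

end Pool.Agent.Results.MP_fcb70f_an.SharpCoarseConnectivity
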